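import Mathlib
import Pool.Agent.Lib.MP_849e4d_lc.BV.Internal
import Pool.Agent.Lib.MP_849e4d_lc.BV.Assembly

/-!
There is a model of `ZFC` in which some ultrafilter `U` on `ω` is strictly Tukey below
`([𝔠]^{<ω}, ⊆)` but does not have finitely generated Tukey reductions. So `ZFC` does not prove
the equivalence asked about in Q1.

All notions are read inside the model `(M, ∈)`; they are defined in
`Pool.Agent.Lib.MP_849e4d_lc.BV.Internal` (and `Pool.Agent.Lib.MP_a1c723_lc.BV.Internal`). The
model is made from the Boolean-valued universe over the regular open algebra of a countably closed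
forcing, whose conditions are countable systems of countably generated filters
(`Pool.Agent.Lib.MP_849e4d_lc.Cond`).
-/

namespace Pool.Agent.Results.MP_849e4d_lc.EquivalenceNotProvable

open Pool.Agent.StarRoth.BV Pool.Agent.FinGenTukey

/-- There is a model `(M, ∈)` of `ZFC` with an ultrafilter `U` on its `ω` such that in `M`:
`U <_T [𝔠]^{<ω}` (`BelowTopIn`, not `AboveTopIn`), even `[ω₁]^{<ω}` is not Tukey below `U`
(`NoUncIn`), `U` does not have finitely generated Tukey reductions (not `FinGenIn`), and some
ultrafilter `V ≤_T U` is not generated by any finitely generated monotone map on `U`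
(`NotGenIn`). -/
theorem result :
    ∃ (M : Type) (_ : Membership M M), ModelZFC M ∧ ∃ w U : M,
      IsOmegaIn w ∧ IsUltraIn U w ∧ BelowTopIn U w ∧ ¬ AboveTopIn U w ∧ NoUncIn U w ∧
        ¬ FinGenIn U w ∧ NotGenIn U w :=
  consistency

end Pool.Agent.Results.MP_849e4d_lc.EquivalenceNotProvable
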